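import Pool.Agent.PSS.StmtsS6

/-!
# Squad PSS, row CYP (helper69): the class `Sx` in the form of `DefsS.lean`
-/

noncomputable section

namespace Pool.Agent.PSS.H69

/-- The restriction of an action to a stable subgroup. -/
def rsh {V E : Type} [CommGroup V] [Group E] (φ : E →* MulAut V) (W : Subgroup V)
    (h : ∀ e : E, ∀ w ∈ W, φ e w ∈ W) : E →* MulAut W where
  toFun := fun e =>
    { toFun := fun w => ⟨φ e w, h e w w.2⟩
      invFun := fun w => ⟨φ e⁻¹ w, h e⁻¹ w w.2⟩
      left_inv := by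
        intro w
        apply Subtype.ext
        change φ e⁻¹ (φ e (w : V)) = w
        rw [← MulAut.mul_apply, ← map_mul, inv_mul_cancel, map_one, MulAut.one_apply]
      right_inv := by
        intro w
        apply Subtype.ext
        change φ e (φ e⁻¹ (w : V)) = w
        rw [← MulAut.mul_apply, ← map_mul, mul_inv_cancel, map_one, MulAut.one_apply]
      map_mul' := by
        intro x y
        apply Subtype.ext
        change φ e ((x : V) * (y : V)) = φ e x * φ e y
        exact map_mul _ _ _ }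
  map_one' := by
    apply MulEquiv.ext
    intro w
    apply Subtype.ext
    change φ 1 (w : V) = w
    rw [map_one, MulAut.one_apply]
  map_mul' := by
    intro a b
    apply MulEquiv.ext
    intro w
    apply Subtype.ext
    change φ (a * b) (w : V) = φ a (φ b w)
    rw [map_mul, MulAut.mul_apply]

theorem rsh_apply {V E : Type} [CommGroup V] [Group E] (φ : E →* MulAut V) (W : Subgroup V)
    (h : ∀ e : E, ∀ w ∈ W, φ e w ∈ W) (e : E) (w : W) : (rsh φ W h e w : V) = φ e w := rfl

/-- A product of cyclic stable subgroups is stable. -/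
theorem cyc_st {V : Type} [CommGroup V] {E : Subgroup (MulAut V)} {C : Subgroup V}
    (hC : Cyc E C) : ∀ a ∈ E, ∀ c ∈ C, a c ∈ C := by
  induction hC with
  | bot =>
    intro a _ c hc
    rw [Subgroup.mem_bot] at hc ⊢
    rw [hc, map_one]
  | mul C Y hC hcyc hst hCY ih =>
    intro a ha c hc
    obtain ⟨y, hy, z, hz, rfl⟩ := Subgroup.mem_sup.mp hc
    rw [map_mul]
    exact Subgroup.mul_mem_sup (ih a ha y hy) (hst a ha z hz)

/-- The claim. -/
theorem claim {V : Type} [CommGroup V] {E : Subgroup (MulAut V)} {C : Subgroup V}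
    (hC : Cyc E C) : ∀ (V₁ E₁ : Type) [CommGroup V₁] [Group E₁] (φ : E₁ →* MulAut V₁)
    (i : V₁ →* V), Function.Injective i → (∀ x, ∃ a ∈ E, ∀ v, i (φ x v) = a (i v)) →
    ∀ W₁ : Subgroup V₁, (∀ x, ∀ w ∈ W₁, φ x w ∈ W₁) → C ⊓ W₁.map i = ⊥ →
    C ⊔ W₁.map i = i.range → ∃ n, Cyp n V₁ E₁ φ W₁ := by
  induction hC with
  | bot =>
    intro V₁ E₁ _ _ φ i hi _ W₁ _ _ h2
    refine ⟨0, ?_⟩
    change W₁ = ⊤
    rw [bot_sup_eq, MonoidHom.range_eq_map] at h2
    exact Subgroup.map_injective hi h2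
  | mul C Y hC hcyc hst hCY ih =>
    intro V₁ E₁ _ _ φ i hi hφ W₁ hW₁ h1 h2
    have hCst := cyc_st hC
    have hYr : Y ≤ i.range := by
      rw [← h2]
      exact le_trans le_sup_right le_sup_left
    have hCr : C ≤ i.range := by
      rw [← h2]
      exact le_trans le_sup_left le_sup_left
    have hWr : W₁.map i ≤ i.range := by
      rw [← h2]
      exact le_sup_right
    have hCW : C ⊓ W₁.map i = ⊥ := by
      rw [eq_bot_iff, ← h1]
      exact inf_le_inf_right _ le_sup_left
    set W' : Subgroup V₁ := (C ⊔ W₁.map i).comap i with hW'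
    set Y₁ : Subgroup V₁ := Y.comap i with hY₁
    have hmap : W'.map i = C ⊔ W₁.map i := by
      rw [hW', Subgroup.map_comap_eq]
      exact inf_eq_right.mpr (sup_le hCr hWr)
    have hWW : W₁ ≤ W' := by
      intro w hw
      rw [hW', Subgroup.mem_comap]
      exact Subgroup.mem_sup_right (Subgroup.mem_map_of_mem i hw)
    have hsw : ∀ e : E₁, ∀ u ∈ W', φ e u ∈ W' := by
      intro e u hu
      rw [hW', Subgroup.mem_comap] at hu ⊢
      obtain ⟨a, ha, hae⟩ := hφ e
      rw [hae]
      obtain ⟨c, hc, w, hw, hcw⟩ := Subgroup.mem_sup.mp hu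
      rw [← hcw, map_mul]
      refine Subgroup.mul_mem_sup (hCst a ha c hc) ?_
      obtain ⟨w₁, hw₁, rfl⟩ := Subgroup.mem_map.mp hw
      rw [← hae]
      exact Subgroup.mem_map_of_mem i (hW₁ e w₁ hw₁)
    have hcompl : IsCompl Y₁ W' := by
      constructor
      · rw [disjoint_iff, eq_bot_iff]
        intro v hv
        obtain ⟨hv1, hv2⟩ := Subgroup.mem_inf.mp hv
        rw [hY₁, Subgroup.mem_comap] at hv1
        rw [hW', Subgroup.mem_comap] at hv2
        obtain ⟨c, hc, w, hw, hcw⟩ := Subgroup.mem_sup.mp hv2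
        have hw1 : w ∈ (C ⊔ Y) ⊓ W₁.map i := by
          refine Subgroup.mem_inf.mpr ⟨?_, hw⟩
          have h3 : w = c⁻¹ * i v := by
            rw [← hcw]
            group
          rw [h3]
          exact Subgroup.mul_mem_sup (C.inv_mem hc) hv1
        rw [h1, Subgroup.mem_bot] at hw1
        have h4 : i v ∈ C ⊓ Y := by
          refine Subgroup.mem_inf.mpr ⟨?_, hv1⟩
          rw [← hcw, hw1, mul_one]
          exact hc
        rw [hCY, Subgroup.mem_bot] at h4
        rw [Subgroup.mem_bot]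
        apply hi
        rw [h4, map_one]
      · rw [codisjoint_iff, eq_top_iff]
        intro v _
        have hv : i v ∈ Y ⊔ (C ⊔ W₁.map i) := by
          have h3 : i v ∈ (C ⊔ Y) ⊔ W₁.map i := by
            rw [h2]
            exact ⟨v, rfl⟩
          have h4 : (C ⊔ Y) ⊔ W₁.map i ≤ Y ⊔ (C ⊔ W₁.map i) :=
            sup_le (sup_le (le_trans le_sup_left le_sup_right) le_sup_left)
              (le_trans le_sup_right le_sup_right)
          exact h4 h3
        obtain ⟨y, hy, z, hz, hyz⟩ := Subgroup.mem_sup.mp hv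
        obtain ⟨y₁, rfl⟩ := hYr hy
        obtain ⟨z₁, rfl⟩ := (sup_le hCr hWr) hz
        have h5 : v = y₁ * z₁ := by
          apply hi
          rw [← hyz, map_mul]
        rw [h5]
        exact Subgroup.mul_mem_sup hy hz
    have hcyc1 : IsCyclic Y₁ := by
      obtain ⟨y, hy, hgen⟩ := hcyc
      obtain ⟨y₁, rfl⟩ := hYr hy
      refine ⟨⟨⟨y₁, hy⟩, ?_⟩⟩
      intro x
      obtain ⟨k, hk⟩ := hgen (i x) x.2
      refine ⟨k, ?_⟩
      apply Subtype.ext
      apply hi
      rw [hk, ← map_zpow]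
      rfl
    have hsy : ∀ e : E₁, ∀ u ∈ Y₁, φ e u ∈ Y₁ := by
      intro e u hu
      rw [hY₁, Subgroup.mem_comap] at hu ⊢
      obtain ⟨a, ha, hae⟩ := hφ e
      rw [hae]
      exact hst a ha _ hu
    have hsub : (W₁.subgroupOf W').map (i.comp W'.subtype) = W₁.map i := by
      rw [← Subgroup.map_map, Subgroup.subgroupOf_map_subtype, inf_eq_left.mpr hWW]
    obtain ⟨n, hn⟩ := ih W' E₁ (rsh φ W' hsw) (i.comp W'.subtype)
      (hi.comp W'.subtype_injective)
      (by
        intro x
        obtain ⟨a, ha, hae⟩ := hφ x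
        exact ⟨a, ha, fun v => hae v⟩)
      (W₁.subgroupOf W')
      (by
        intro x w hw
        rw [Subgroup.mem_subgroupOf] at hw ⊢
        exact hW₁ x _ hw)
      (by rw [hsub]; exact hCW)
      (by rw [hsub, MonoidHom.range_comp, Subgroup.range_subtype, hmap])
    refine ⟨n + 1, Y₁, W', rsh φ W' hsw, ⟨hcompl, hcyc1, hsy, hsw⟩, hWW, ?_, hn⟩
    intro e w
    rfl

theorem cyp : CypStmt := by
  intro V _ _ E C W U X h
  have hst : ∀ e : E, ∀ w ∈ W, E.subtype e w ∈ W := by
    intro e w hw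
    rw [← h.uw] at hw ⊢
    obtain ⟨u, hu, x, hx, rfl⟩ := Subgroup.mem_sup.mp hw
    rw [map_mul]
    exact Subgroup.mul_mem_sup (h.su e e.2 u hu) (h.sx e e.2 x hx)
  obtain ⟨n, hn⟩ := claim h.cy V E E.subtype (MonoidHom.id V) (fun _ _ h => h)
    (fun x => ⟨x, x.2, fun v => rfl⟩) W hst
    (by rw [Subgroup.map_id]; exact h.cw)
    (by rw [Subgroup.map_id, h.jn, MonoidHom.range_eq_map, Subgroup.map_id])
  have hUW : U ≤ W := by
    rw [← h.uw]
    exact le_sup_left
  have hXW : X ≤ W := by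
    rw [← h.uw]
    exact le_sup_right
  refine ⟨n, rsh E.subtype W hst, hn, fun e w => rfl, U.subgroupOf W, X.subgroupOf W, ?_, ?_,
    ?_, ?_, ?_⟩
  · intro hb
    apply h.nt
    have h2 := Subgroup.subgroupOf_map_subtype U W
    rw [hb, Subgroup.map_bot, inf_eq_left.mpr hUW] at h2
    exact h2.symm
  · constructor
    · rw [disjoint_iff, eq_bot_iff]
      intro v hv
      obtain ⟨hv1, hv2⟩ := Subgroup.mem_inf.mp hv
      rw [Subgroup.mem_subgroupOf] at hv1 hv2
      have h3 : (v : V) ∈ U ⊓ X := Subgroup.mem_inf.mpr ⟨hv1, hv2⟩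
      rw [h.ux, Subgroup.mem_bot] at h3
      rw [Subgroup.mem_bot]
      exact Subtype.ext h3
    · rw [codisjoint_iff, eq_top_iff]
      intro v _
      have hv : (v : V) ∈ U ⊔ X := by
        rw [h.uw]
        exact v.2
      obtain ⟨u, hu, x, hx, hux⟩ := Subgroup.mem_sup.mp hv
      have h5 : v = (⟨u, hUW hu⟩ : W) * ⟨x, hXW hx⟩ := Subtype.ext hux.symm
      rw [h5]
      exact Subgroup.mul_mem_sup (Subgroup.mem_subgroupOf.mpr hu)
        (Subgroup.mem_subgroupOf.mpr hx)
  · intro e u hu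
    rw [Subgroup.mem_subgroupOf] at hu ⊢
    exact h.su e e.2 _ hu
  · intro e u hu
    rw [Subgroup.mem_subgroupOf] at hu ⊢
    exact h.sx e e.2 _ hu
  · intro e u hu hu1 heu
    rw [Subgroup.mem_subgroupOf] at hu
    apply MulEquiv.ext
    intro w
    apply Subtype.ext
    change (e : MulAut V) (w : V) = w
    refine h.fr e e.2 u hu ?_ ?_ w w.2
    · intro h0
      exact hu1 (Subtype.ext h0)
    · exact Subtype.ext_iff.mp heu

end Pool.Agent.PSS.H69
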