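import Pool.Agent.PSS.StmtsS1a

/-!
# Squad PSS, row STV (helper69): one step of the lift of the multiplication
-/

open scoped BigOperators TensorProduct

noncomputable section

namespace Pool.Agent.PSS.H69

open Pool.Agent.PFD.D2 (Cdv FibG)
open Pool.Agent.PFD.D2b (FrR)
open Finset

theorem bw1 {F V A : Type} [Field F] [CommGroup V] [Ring A] [Algebra F A] (α : V →* A) (g : V)
    (a : A) : bw F α (g, 1) a = α g * a := by
  change α g * (a * α (1 : V)⁻¹) = α g * a
  rw [inv_one, map_one, mul_one]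

theorem bw2 {F V A : Type} [Field F] [CommGroup V] [Ring A] [Algebra F A] (α : V →* A) (g : V)
    (a : A) : bw F α (1, g) a = a * α g⁻¹ := by
  change α 1 * (a * α g⁻¹) = a * α g⁻¹
  rw [map_one, one_mul]

theorem stv : StvStmt := by
  intro R F V A M K _ _ _ c _ _ _ _ _ _ _ _ α u v hC ρ q hq hL β n hn hβ hβq hasr
  choose w hw using hasr
  obtain ⟨h1, h2, h3⟩ := hβ
  have hπ : c.π ≠ 0 := by
    intro h0
    have := c.reg 1 (by rw [h0, zero_mul])
    exact one_ne_zero this
  have hinj : ∀ a b : M, c.π ^ n • a = c.π ^ n • b → a = b := fun a b h =>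
    smul_right_injective M (pow_ne_zero n hπ) h
  have hκ : c.κ c.π = 0 := (c.ker c.π).mpr ⟨1, (mul_one _).symm⟩
  have hqs : ∀ (r : R) x, q (r • x) = c.κ r • q x := hq.sc
  -- multilinearity
  have wa1 : ∀ x x' y z, w (x + x') y z = w x y z + w x' y z := by
    intro x x' y z
    apply hinj
    rw [smul_add, ← hw, ← hw, ← hw]
    simp only [asr, map_add, LinearMap.add_apply]
    abel
  have wa2 : ∀ x y y' z, w x (y + y') z = w x y z + w x y' z := by
    intro x y y' z
    apply hinj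
    rw [smul_add, ← hw, ← hw, ← hw]
    simp only [asr, map_add, LinearMap.add_apply]
    abel
  have wa3 : ∀ x y z z', w x y (z + z') = w x y z + w x y z' := by
    intro x y z z'
    apply hinj
    rw [smul_add, ← hw, ← hw, ← hw]
    simp only [asr, map_add]
    abel
  have ws1 : ∀ (r : R) x y z, w (r • x) y z = r • w x y z := by
    intro r x y z
    apply hinj
    rw [smul_comm, ← hw, ← hw]
    simp only [asr, map_smul, LinearMap.smul_apply, smul_sub]
  have ws2 : ∀ (r : R) x y z, w x (r • y) z = r • w x y z := by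
    intro r x y z
    apply hinj
    rw [smul_comm, ← hw, ← hw]
    simp only [asr, map_smul, LinearMap.smul_apply, smul_sub]
  have ws3 : ∀ (r : R) x y z, w x y (r • z) = r • w x y z := by
    intro r x y z
    apply hinj
    rw [smul_comm, ← hw, ← hw]
    simp only [asr, map_smul, smul_sub]
  -- the reduction depends only on the reductions
  have hd : ∀ x x', q x = q x' → ∃ t, x = x' + c.π • t := by
    intro x x' h
    have h0 : q (x - x') = 0 := by rw [map_sub, h, sub_self]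
    obtain ⟨t, ht⟩ := (hq.kr _).mp h0
    exact ⟨t, by rw [← ht]; abel⟩
  have hz : ∀ t, q (c.π • t) = 0 := by
    intro t
    rw [hqs, hκ, zero_smul]
  have d1' : ∀ x x' y z, q x = q x' → q (w x y z) = q (w x' y z) := by
    intro x x' y z h
    obtain ⟨t, rfl⟩ := hd x x' h
    rw [wa1, ws1, map_add, hz, add_zero]
  have d2' : ∀ x y y' z, q y = q y' → q (w x y z) = q (w x y' z) := by
    intro x y y' z h
    obtain ⟨t, rfl⟩ := hd y y' h
    rw [wa2, ws2, map_add, hz, add_zero]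
  have d3' : ∀ x y z z', q z = q z' → q (w x y z) = q (w x y z') := by
    intro x y z z' h
    obtain ⟨t, rfl⟩ := hd z z' h
    rw [wa3, ws3, map_add, hz, add_zero]
  -- the reduction
  set s : A → M := Function.surjInv hq.sj with hs0
  have hs : ∀ a, q (s a) = a := Function.surjInv_eq hq.sj
  set W : A → A → A → A := fun a b d => q (w (s a) (s b) (s d)) with hW0
  have hW : ∀ x y z, W (q x) (q y) (q z) = q (w x y z) := by
    intro x y z
    change q (w (s (q x)) (s (q y)) (s (q z))) = q (w x y z)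
    rw [d1' _ x _ _ (hs _), d2' _ _ y _ (hs _), d3' _ _ _ z (hs _)]
  clear_value W s
  have Wa1 : ∀ a a' b d, W (a + a') b d = W a b d + W a' b d := by
    intro a a' b d
    obtain ⟨a, rfl⟩ := hq.sj a
    obtain ⟨a', rfl⟩ := hq.sj a'
    obtain ⟨b, rfl⟩ := hq.sj b
    obtain ⟨d, rfl⟩ := hq.sj d
    rw [← map_add, hW, hW, hW, wa1, map_add]
  have Wa2 : ∀ a b b' d, W a (b + b') d = W a b d + W a b' d := by
    intro a b b' d
    obtain ⟨a, rfl⟩ := hq.sj a
    obtain ⟨b', rfl⟩ := hq.sj b'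
    obtain ⟨b, rfl⟩ := hq.sj b
    obtain ⟨d, rfl⟩ := hq.sj d
    rw [← map_add, hW, hW, hW, wa2, map_add]
  have Wa3 : ∀ a b d d', W a b (d + d') = W a b d + W a b d' := by
    intro a b d d'
    obtain ⟨a, rfl⟩ := hq.sj a
    obtain ⟨d', rfl⟩ := hq.sj d'
    obtain ⟨b, rfl⟩ := hq.sj b
    obtain ⟨d, rfl⟩ := hq.sj d
    rw [← map_add, hW, hW, hW, wa3, map_add]
  have Ws1 : ∀ (r : F) a b d, W (r • a) b d = r • W a b d := by
    intro r a b d
    obtain ⟨r, rfl⟩ := c.surj r
    obtain ⟨a, rfl⟩ := hq.sj a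
    obtain ⟨b, rfl⟩ := hq.sj b
    obtain ⟨d, rfl⟩ := hq.sj d
    rw [← hqs, hW, hW, ws1, hqs]
  have Ws2 : ∀ (r : F) a b d, W a (r • b) d = r • W a b d := by
    intro r a b d
    obtain ⟨r, rfl⟩ := c.surj r
    obtain ⟨a, rfl⟩ := hq.sj a
    obtain ⟨b, rfl⟩ := hq.sj b
    obtain ⟨d, rfl⟩ := hq.sj d
    rw [← hqs, hW, hW, ws2, hqs]
  have Ws3 : ∀ (r : F) a b d, W a b (r • d) = r • W a b d := by
    intro r a b d
    obtain ⟨r, rfl⟩ := c.surj r
    obtain ⟨a, rfl⟩ := hq.sj a
    obtain ⟨b, rfl⟩ := hq.sj b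
    obtain ⟨d, rfl⟩ := hq.sj d
    rw [← hqs, hW, hW, ws3, hqs]
  -- relative
  have wg1 : ∀ g x y z, w (ρ (g, 1) x) y z = ρ (g, 1) (w x y z) := by
    intro g x y z
    apply hinj
    rw [← map_smul, ← hw, ← hw]
    simp only [asr, h1, map_sub]
  have wg2 : ∀ g x y z, w (ρ (1, g) x) y z = w x (ρ (g⁻¹, 1) y) z := by
    intro g x y z
    apply hinj
    rw [← hw, ← hw]
    simp only [asr, h2, h1]
  have wg3 : ∀ g x y z, w x (ρ (1, g) y) z = w x y (ρ (g⁻¹, 1) z) := by
    intro g x y z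
    apply hinj
    rw [← hw, ← hw]
    simp only [asr, h3, h2]
  have wg4 : ∀ g x y z, w x y (ρ (1, g) z) = ρ (1, g) (w x y z) := by
    intro g x y z
    apply hinj
    rw [← map_smul, ← hw, ← hw]
    simp only [asr, h3, map_sub]
  have Wg1 : ∀ g a b d, W (α g * a) b d = α g * W a b d := by
    intro g a b d
    obtain ⟨a, rfl⟩ := hq.sj a
    obtain ⟨b, rfl⟩ := hq.sj b
    obtain ⟨d, rfl⟩ := hq.sj d
    rw [← bw1 (F := F), ← hq.eq, hW, hW, wg1, hq.eq, bw1]
  have Wg2 : ∀ g a b d, W (a * α g) b d = W a (α g * b) d := by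
    intro g a b d
    obtain ⟨a, rfl⟩ := hq.sj a
    obtain ⟨b, rfl⟩ := hq.sj b
    obtain ⟨d, rfl⟩ := hq.sj d
    have e1 : q a * α g = q (ρ (1, g⁻¹) a) := by rw [hq.eq, bw2, inv_inv]
    have e2 : α g * q b = q (ρ (g, 1) b) := by rw [hq.eq, bw1]
    rw [e1, e2, hW, hW, wg2, inv_inv]
  have Wg3 : ∀ g a b d, W a (b * α g) d = W a b (α g * d) := by
    intro g a b d
    obtain ⟨a, rfl⟩ := hq.sj a
    obtain ⟨b, rfl⟩ := hq.sj b
    obtain ⟨d, rfl⟩ := hq.sj d
    have e1 : q b * α g = q (ρ (1, g⁻¹) b) := by rw [hq.eq, bw2, inv_inv]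
    have e2 : α g * q d = q (ρ (g, 1) d) := by rw [hq.eq, bw1]
    rw [e1, e2, hW, hW, wg3, inv_inv]
  have Wg4 : ∀ g a b d, W a b (d * α g) = W a b d * α g := by
    intro g a b d
    obtain ⟨a, rfl⟩ := hq.sj a
    obtain ⟨b, rfl⟩ := hq.sj b
    obtain ⟨d, rfl⟩ := hq.sj d
    have e1 : q d * α g = q (ρ (1, g⁻¹) d) := by rw [hq.eq, bw2, inv_inv]
    rw [e1, hW, hW, wg4, hq.eq, bw2, inv_inv]
  -- the cocycle identity
  have wid : ∀ x y z t, β x (w y z t) + w x (β y z) t + β (w x y z) t =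
      w (β x y) z t + w x y (β z t) := by
    intro x y z t
    apply hinj
    have e1 : c.π ^ n • β x (w y z t) = β x (asr β y z t) := by rw [hw, map_smul]
    have e3 : c.π ^ n • β (w x y z) t = β (asr β x y z) t := by
      rw [hw, map_smul, LinearMap.smul_apply]
    rw [smul_add, smul_add, smul_add, e1, e3, ← hw, ← hw, ← hw]
    simp only [asr, map_sub, LinearMap.sub_apply]
    abel
  have Wid : ∀ a b d e, a * W b d e + W a (b * d) e + W a b d * e =
      W (a * b) d e + W a b (d * e) := by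
    intro a b d e
    obtain ⟨a, rfl⟩ := hq.sj a
    obtain ⟨b, rfl⟩ := hq.sj b
    obtain ⟨d, rfl⟩ := hq.sj d
    obtain ⟨e, rfl⟩ := hq.sj e
    rw [← hβq, ← hβq, ← hβq, hW, hW, hW, hW, hW, ← hβq, ← hβq, ← map_add, ← map_add, ← map_add,
      wid]
  -- the homotopy
  obtain ⟨hC1, hC2⟩ := hC
  have hcas : ∀ a b d, ∑ i, d * u i * W (v i) a b = ∑ i, u i * W (v i * d) a b := by
    intro a b d
    have h := hC2 A (LinearMap.mk₂ F (fun a' b' => a' * W b' a b)
      (fun m₁ m₂ n => add_mul _ _ _) (fun r m n => smul_mul_assoc _ _ _)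
      (fun m n₁ n₂ => by rw [Wa1, mul_add]) (fun r m n => by rw [Ws1, mul_smul_comm]))
      (fun a' g b' => by
        simp only [LinearMap.mk₂_apply]
        rw [Wg1, mul_assoc]) d
    simpa only [LinearMap.mk₂_apply] using h
  set ν₀ : A →ₗ[F] A →ₗ[F] A := LinearMap.mk₂ F (fun a b => ∑ i, u i * W (v i) a b)
    (fun m₁ m₂ n => by
      rw [← Finset.sum_add_distrib]
      exact Finset.sum_congr rfl fun i _ => by rw [Wa2, mul_add])
    (fun r m n => by
      rw [Finset.smul_sum]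
      exact Finset.sum_congr rfl fun i _ => by rw [Ws2, mul_smul_comm])
    (fun m n₁ n₂ => by
      rw [← Finset.sum_add_distrib]
      exact Finset.sum_congr rfl fun i _ => by rw [Wa3, mul_add])
    (fun r m n => by
      rw [Finset.smul_sum]
      exact Finset.sum_congr rfl fun i _ => by rw [Ws3, mul_smul_comm]) with hν₀
  have hν₀a : ∀ a b, ν₀ a b = ∑ i, u i * W (v i) a b := fun a b => rfl
  clear_value ν₀
  have hRB : RB (bw F α) ν₀ := by
    refine ⟨?_, ?_, ?_⟩
    · intro g x y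
      rw [bw1, bw1, hν₀a, hν₀a, Finset.mul_sum]
      have e1 : ∀ i, u i * W (v i) (α g * x) y = u i * W (v i * α g) x y := by
        intro i
        rw [Wg2]
      rw [Finset.sum_congr rfl fun i _ => e1 i, ← hcas]
      exact Finset.sum_congr rfl fun i _ => mul_assoc _ _ _
    · intro g x y
      rw [bw1, bw2, hν₀a, hν₀a]
      exact Finset.sum_congr rfl fun i _ => by rw [Wg3]
    · intro g x y
      rw [bw2, bw2, hν₀a, hν₀a, Finset.sum_mul]
      exact Finset.sum_congr rfl fun i _ => by rw [Wg4, mul_assoc]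
  have hcob : ∀ a b d, a * ν₀ b d + ν₀ a (b * d) = W a b d + ν₀ (a * b) d + ν₀ a b * d := by
    intro a b d
    have e0 : a * ν₀ b d = ∑ i, u i * W (v i * a) b d := by
      rw [hν₀a, ← hcas, Finset.mul_sum]
      exact Finset.sum_congr rfl fun i _ => (mul_assoc _ _ _).symm
    have e1 : W a b d = ∑ i, u i * (v i * W a b d) := by
      have : ∑ i, u i * (v i * W a b d) = (∑ i, u i * v i) * W a b d := by
        rw [Finset.sum_mul]
        exact Finset.sum_congr rfl fun i _ => (mul_assoc _ _ _).symm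
      rw [this, hC1, one_mul]
    rw [e0, e1, hν₀a, hν₀a, hν₀a, Finset.sum_mul, ← Finset.sum_add_distrib,
      ← Finset.sum_add_distrib, ← Finset.sum_add_distrib]
    refine Finset.sum_congr rfl fun i _ => ?_
    rw [mul_assoc (u i) (W (v i) a b) d, ← mul_add, ← mul_add, ← mul_add, Wid]
  obtain ⟨ν, hν, hνq⟩ := hL ν₀ hRB
  refine ⟨ν, hν, fun x y z => ?_⟩
  set T : M := w x y z + (β (ν x y) z + ν (β x y) z - β x (ν y z) - ν x (β y z)) +
    c.π ^ n • (ν (ν x y) z - ν x (ν y z)) with hT0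
  have hT : q T = 0 := by
    have hκn : c.κ (c.π ^ n) = 0 := by
      rw [map_pow, hκ, zero_pow (by omega)]
    rw [hT0, map_add, map_add, map_sub, map_sub, map_add, hqs, hκn, zero_smul, add_zero,
      hβq, hβq, hνq, hνq, hνq, hνq, hβq, hβq, ← hW]
    have h := hcob (q x) (q y) (q z)
    have h' : W (q x) (q y) (q z) + (ν₀ (q x) (q y) * q z + ν₀ (q x * q y) (q z) -
        q x * ν₀ (q y) (q z) - ν₀ (q x) (q y * q z)) =
        (W (q x) (q y) (q z) + ν₀ (q x * q y) (q z) + ν₀ (q x) (q y) * q z) -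
        (q x * ν₀ (q y) (q z) + ν₀ (q x) (q y * q z)) := by abel
    rw [h', h, sub_self]
  obtain ⟨t, ht⟩ := (hq.kr T).mp hT
  refine ⟨t, ?_⟩
  have hexp : asr (β + c.π ^ n • ν) x y z = c.π ^ n • T := by
    have h5 := hw x y z
    have h6 : β (β x y) z = β x (β y z) + c.π ^ n • w x y z := by
      rw [← h5, asr]
      abel
    rw [hT0]
    simp only [asr, LinearMap.add_apply, LinearMap.smul_apply, map_add, map_smul]
    rw [h6]
    module
  rw [hexp, ht, smul_smul, ← pow_succ]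

end Pool.Agent.PSS.H69
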