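import Pool.Agent.PSS.StmtsS2

/-! Squad PSS, block S2, row CNH: `Nh H b c` is a connection. -/

open scoped BigOperators

noncomputable section

namespace Pool.Agent.PSS.S2.H69

open Pool.Agent.PFD.D2b (FrR)

theorem cnh : CnhStmt := by
  intro R V A Ω _ _ _ _ _ _ q α χ H b c hfr hadd hH
  obtain ⟨h1, h2, h3⟩ := hfr
  refine ⟨hadd, ?_⟩
  intro a v
  have hc : ∀ ω : Ω, c (((1 : V), v) • ω) a = c ω (a * α v) := by
    intro ω
    have h := h2 ((1 : V), v) ω (a * α v)
    have e : bw R α ((1 : V), v) (a * α v) = a := by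
      simp [bw, mul_assoc, ← map_mul]
    rw [e] at h
    exact h
  have hb : ∀ ω : Ω, b (((1 : V), v) • ω) * α v = b ω := by
    intro ω
    rw [h1 ((1 : V), v) ω]
    simp [bw, mul_assoc, ← map_mul]
  choose d hd using fun ω : Ω => hH v ω
  have e1 : Nh H b c (a * α v) = ∑ ω, (c (((1 : V), v) • ω) a * H ω) • b ω := by
    rw [nh_apply]
    refine Finset.sum_congr rfl fun ω _ => ?_
    rw [hc]
  have e2 : Nh H b c a * α v =
      ∑ ω, (c (((1 : V), v) • ω) a * H (((1 : V), v) • ω)) • b ω := by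
    rw [nh_apply, Finset.sum_mul]
    rw [← Equiv.sum_comp (MulAction.toPerm ((1 : V), v) : Equiv.Perm Ω)]
    refine Finset.sum_congr rfl fun ω _ => ?_
    rw [MulAction.toPerm_apply, smul_mul_assoc, hb]
  have e3 : a * α v = ∑ ω, c (((1 : V), v) • ω) a • b ω := by
    conv_lhs => rw [← h3 a]
    rw [Finset.sum_mul]
    rw [← Equiv.sum_comp (MulAction.toPerm ((1 : V), v) : Equiv.Perm Ω)]
    refine Finset.sum_congr rfl fun ω _ => ?_
    rw [MulAction.toPerm_apply, smul_mul_assoc, hb]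
  refine ⟨- ∑ ω, (c (((1 : V), v) • ω) a * d ω) • b ω, ?_⟩
  rw [e1, e2]
  conv_lhs => rw [e3]
  rw [Finset.smul_sum, ← Finset.sum_add_distrib, ← Finset.sum_sub_distrib, smul_neg,
    Finset.smul_sum, ← Finset.sum_neg_distrib]
  refine Finset.sum_congr rfl fun ω _ => ?_
  have h := hd ω
  have h' : H ω = H (((1 : V), v) • ω) + χ v - q * d ω := by
    rw [smul_eq_mul] at h
    linear_combination (-1 : R) * h
  rw [h']
  simp only [smul_smul, ← add_smul, ← sub_smul, ← neg_smul]
  congr 1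
  ring

end Pool.Agent.PSS.S2.H69
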